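import Pool.Agent.W27.FB.Stm

set_option autoImplicit false
set_option maxHeartbeats 400000
open Filter Topology Finset
open scoped BoundedContinuousFunction

/-!
# FN-TRG: trigonometric polynomials form an algebra closed under conjugation
-/

namespace Pool.Agent.W975.FN

open Pool.Agent.W27.FB Pool.Agent.W634.BQ Pool.Agent.W505.BQ

lemma chr_one : chr 1 = 1 := by
  ext n
  rw [chr_apply, one_zpow]
  simp

lemma chr_mul (θ θ' : Circle) : chr θ * chr θ' = chr (θ * θ') := by
  ext n
  rw [BoundedContinuousFunction.coe_mul, Pi.mul_apply, chr_apply, chr_apply, chr_apply,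
    mul_zpow, Circle.coe_mul]

lemma chr_star (θ : Circle) : star (chr θ) = chr θ⁻¹ := by
  ext n
  rw [BoundedContinuousFunction.star_apply, chr_apply, chr_apply, inv_zpow,
    Circle.coe_inv_eq_conj, RCLike.star_def]

lemma chr_mem (θ : Circle) : chr θ ∈ Trig := Submodule.subset_span ⟨θ, rfl⟩

/-- FB-TRG -/
theorem trg : S_trg := by
  refine ⟨?_, ?_, ?_⟩
  · rw [← chr_one]
    exact chr_mem 1
  · intro f g hf hg
    unfold Trig at hf
    induction hf using Submodule.span_induction with
    | mem x hx =>
      obtain ⟨θ, rfl⟩ := hx
      unfold Trig at hg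
      induction hg using Submodule.span_induction with
      | mem y hy =>
        obtain ⟨θ', rfl⟩ := hy
        rw [chr_mul]
        exact chr_mem _
      | zero =>
        rw [mul_zero]
        exact Trig.zero_mem
      | add y z _ _ hy hz =>
        rw [mul_add]
        exact Trig.add_mem hy hz
      | smul c y _ hy =>
        rw [mul_smul_comm]
        exact Trig.smul_mem c hy
    | zero =>
      rw [zero_mul]
      exact Trig.zero_mem
    | add x y _ _ hx hy =>
      rw [add_mul]
      exact Trig.add_mem hx hy
    | smul c x _ hx =>
      rw [smul_mul_assoc]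
      exact Trig.smul_mem c hx
  · intro f hf
    unfold Trig at hf
    induction hf using Submodule.span_induction with
    | mem x hx =>
      obtain ⟨θ, rfl⟩ := hx
      rw [chr_star]
      exact chr_mem _
    | zero =>
      rw [star_zero]
      exact Trig.zero_mem
    | add x y _ _ hx hy =>
      rw [star_add]
      exact Trig.add_mem hx hy
    | smul c x _ hx =>
      rw [star_smul]
      exact Trig.smul_mem _ hx

end Pool.Agent.W975.FN
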